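import Pool.Agent.H73.CBE.Stmts

/-! Row DLB of the board CBE (helper45). -/

set_option autoImplicit false

open Set Filter Topology

namespace Pool.CBE

theorem DLB_thm (h1 : PERStmt) : DLBStmt := by
  obtain ⟨_, hsq, hle, _⟩ := h1
  intro n x y hx hy
  have hx0 : x ≠ 0 := by
    intro h
    rw [h, norm_zero] at hx
    exact zero_ne_one hx
  have hy0 : y ≠ 0 := by
    intro h
    rw [h, norm_zero] at hy
    exact zero_ne_one hy
  have e1 : dl x y ^ 2 = 1 - ‖(inner ℂ x y : ℂ)‖ ^ 2 := by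
    have h := hsq n x y hx0
    rw [hx, hy] at h
    simpa [dl] using h
  have e2 : dl y x ^ 2 = 1 - ‖(inner ℂ x y : ℂ)‖ ^ 2 := by
    have h := hsq n y x hy0
    rw [hx, hy] at h
    rw [norm_inner_symm]
    simpa [dl] using h
  have n1 : 0 ≤ dl x y := norm_nonneg _
  have n2 : 0 ≤ dl y x := norm_nonneg _
  refine ⟨e1, ?_, n1, ?_, ?_⟩
  · exact (pow_left_inj₀ n1 n2 two_ne_zero).1 (e1.trans e2.symm)
  · have h : dl x y ^ 2 ≤ 1 := by
      rw [e1]
      have : 0 ≤ ‖(inner ℂ x y : ℂ)‖ ^ 2 := sq_nonneg _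
      linarith
    nlinarith
  · have h := hle n x y 1 hx0
    rw [one_smul, norm_sub_rev] at h
    exact h

end Pool.CBE
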